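import Pool.Agent.H501Z.Luz.Defs

set_option autoImplicit false

namespace Pool.Agent.H501Z.Luz

open Set Filter Cardinal

theorem isOpen_of_agree {s : Set Cantor}
    (h : ∀ x ∈ s, ∃ N : ℕ, ∀ y : Cantor, (∀ n < N, y n = x n) → y ∈ s) : IsOpen s := by
  rw [isOpen_pi_iff]
  intro x hx
  obtain ⟨N, hN⟩ := h x hx
  refine ⟨Finset.range N, fun n => {x n}, fun n _ => ⟨isOpen_discrete _, rfl⟩, ?_⟩
  intro y hy
  exact hN y fun n hn => hy n (by simpa using hn)

theorem agree_of_isOpen {s : Set Cantor} (hs : IsOpen s) {x : Cantor} (hx : x ∈ s) :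
    ∃ N : ℕ, ∀ y : Cantor, (∀ n < N, y n = x n) → y ∈ s := by
  obtain ⟨I, u, hIu, hI⟩ := isOpen_pi_iff.1 hs x hx
  refine ⟨I.sup id + 1, fun y hy => hI ?_⟩
  intro i hi
  have hi2 : i < I.sup id + 1 := Nat.lt_succ_of_le (Finset.le_sup (f := id) hi)
  show y i ∈ u i
  rw [hy i hi2]
  exact (hIu i hi).2

theorem dense_of_agree {s : Set Cantor}
    (h : ∀ (x : Cantor) (N : ℕ), ∃ y ∈ s, ∀ n < N, y n = x n) : Dense s := by
  rw [dense_iff_inter_open]
  rintro U hU ⟨x, hx⟩
  obtain ⟨N, hN⟩ := agree_of_isOpen hU hx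
  obtain ⟨y, hy, hyx⟩ := h x N
  exact ⟨y, hN y hyx, hy⟩

/-- agreement balls in finite powers of a set of reals -/
theorem agree_pow {Y : Set Cantor} {k : ℕ} {u : Set (Fin k → Y)} (hu : IsOpen u)
    {p : Fin k → Y} (hp : p ∈ u) :
    ∃ N : ℕ, ∀ q : Fin k → Y, (∀ c, ∀ n < N, (q c).1 n = (p c).1 n) → q ∈ u := by
  obtain ⟨I, v, hIv, hI⟩ := isOpen_pi_iff.1 hu p hp
  have h1 : ∀ c : Fin k, ∃ N : ℕ, c ∈ I → ∀ y : Y, (∀ n < N, y.1 n = (p c).1 n) → y ∈ v c := by
    intro c
    by_cases hc : c ∈ I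
    · obtain ⟨w, hw, hwv⟩ := isOpen_induced_iff.1 (hIv c hc).1
      have hpw : (p c).1 ∈ w := by
        have : p c ∈ Subtype.val ⁻¹' w := by rw [hwv]; exact (hIv c hc).2
        exact this
      obtain ⟨N, hN⟩ := agree_of_isOpen hw hpw
      refine ⟨N, fun _ y hy => ?_⟩
      rw [← hwv]
      exact hN y.1 hy
    · exact ⟨0, fun h => absurd h hc⟩
  choose N hN using h1
  refine ⟨Finset.univ.sup N, fun q hq => hI ?_⟩
  intro c hc
  exact hN c hc (q c) fun n hn =>
    hq c n (lt_of_lt_of_le hn (Finset.le_sup (f := N) (Finset.mem_univ c)))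

theorem exists_not_mem_of_lt_covM {ι : Type} (hι : #ι < covM) (M : ι → Set Cantor)
    (hM : ∀ i, IsMeagre (M i)) : ∃ b : Cantor, ∀ i, b ∉ M i := by
  by_contra hcon
  push Not at hcon
  have h1 : covM ≤ #(range M) := by
    apply csInf_le'
    refine ⟨range M, ?_, ?_, rfl⟩
    · rintro _ ⟨i, rfl⟩
      exact hM i
    · ext b
      simp only [sUnion_range, mem_iUnion, mem_univ, iff_true]
      exact hcon b
  exact absurd (lt_of_le_of_lt (h1.trans mk_range_le) hι) (lt_irrefl _)

theorem singleton_meagre (x : Cantor) : IsMeagre ({x} : Set Cantor) := by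
  apply residual_of_dense_open
  · exact isOpen_compl_singleton
  · apply dense_of_agree
    intro z N
    refine ⟨fun n => if n < N then z n else !x n, ?_, fun n hn => by simp [hn]⟩
    intro h
    have := congrFun (mem_singleton_iff.1 h) N
    simp at this

theorem mk_Cantor : #Cantor = continuum := by
  simp [Cantor]

theorem covM_le : covM ≤ continuum := by
  have : covM ≤ #(range fun x : Cantor => ({x} : Set Cantor)) := by
    apply csInf_le'
    refine ⟨_, ?_, ?_, rfl⟩
    · rintro _ ⟨x, rfl⟩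
      exact singleton_meagre x
    · ext b
      simp
  exact this.trans (mk_range_le.trans mk_Cantor.le)

theorem aleph0_lt_covM : ℵ₀ < covM := by
  have hne : {c : Cardinal.{0} | ∃ F : Set (Set Cantor),
      (∀ M ∈ F, IsMeagre M) ∧ ⋃₀ F = Set.univ ∧ #F = c}.Nonempty := by
    refine ⟨_, range fun x : Cantor => ({x} : Set Cantor), ?_, ?_, rfl⟩
    · rintro _ ⟨x, rfl⟩
      exact singleton_meagre x
    · ext b
      simp
  obtain ⟨F, hF, hU, hc⟩ := csInf_mem hne
  by_contra hle
  push Not at hle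
  have hcount : F.Countable := by
    rw [← le_aleph0_iff_set_countable]
    exact hc.le.trans hle
  have h1 : IsMeagre (⋃₀ F) := by
    unfold IsMeagre
    rw [compl_sUnion, sInter_image]
    exact (countable_bInter_mem hcount).2 fun M hM => hF M hM
  rw [hU] at h1
  unfold IsMeagre at h1
  have := dense_of_mem_residual h1
  rw [compl_univ] at this
  exact absurd (this.nonempty) (by simp)

theorem domNum_spec : ∃ D : Set (ℕ → ℕ),
    (∀ g : ℕ → ℕ, ∃ f ∈ D, ∀ᶠ n in atTop, g n ≤ f n) ∧ #D = domNum := by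
  have hne : {c : Cardinal.{0} | ∃ D : Set (ℕ → ℕ),
      (∀ g : ℕ → ℕ, ∃ f ∈ D, ∀ᶠ n in atTop, g n ≤ f n) ∧ #D = c}.Nonempty :=
    ⟨_, Set.univ, fun g => ⟨g, trivial, Eventually.of_forall fun _ => le_rfl⟩, rfl⟩
  exact csInf_mem hne

theorem domNum_le : domNum ≤ continuum := by
  obtain ⟨D, _, hD⟩ := domNum_spec
  rw [← hD]
  refine (mk_set_le D).trans ?_
  simp

theorem aleph0_lt_domNum : ℵ₀ < domNum := by
  obtain ⟨D, hdom, hD⟩ := domNum_spec
  by_contra hle
  push Not at hle
  have hcount : D.Countable := by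
    rw [← le_aleph0_iff_set_countable]
    exact hD.le.trans hle
  obtain ⟨f0, hf0, _⟩ := hdom (fun _ => 0)
  obtain ⟨e, he⟩ := hcount.exists_eq_range ⟨f0, hf0⟩
  obtain ⟨f, hf, hfg⟩ := hdom (fun n => (Finset.range (n + 1)).sup (fun i => e i n) + 1)
  rw [he] at hf
  obtain ⟨i, rfl⟩ := hf
  obtain ⟨n, hn1, hn2⟩ := (hfg.and (eventually_ge_atTop i)).exists
  have : e i n ≤ (Finset.range (n + 1)).sup (fun i => e i n) :=
    Finset.le_sup (f := fun i => e i n) (Finset.mem_range.2 (Nat.lt_succ_of_le hn2))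
  omega

theorem hyp_of_CH (h : continuum.{0} = aleph 1) : covM = domNum ∧ covM.IsRegular := by
  have h1 : covM = aleph 1 := by
    apply le_antisymm (covM_le.trans h.le)
    rw [← succ_aleph0]
    exact Order.succ_le_of_lt aleph0_lt_covM
  have h2 : domNum = aleph 1 := by
    apply le_antisymm (domNum_le.trans h.le)
    rw [← succ_aleph0]
    exact Order.succ_le_of_lt aleph0_lt_domNum
  exact ⟨h1.trans h2.symm, h1 ▸ isRegular_aleph_one⟩

/-- small sets have Rothberger's property -/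
theorem small_rothberger {W : Type} [TopologicalSpace W] [SecondCountableTopology W] [Nonempty W]
    (Z : Set W) (hZ : #Z < covM) (U : ℕ → Set (Set W)) (hU : ∀ n, IsOpenCoverOf W (U n)) :
    ∃ V : ℕ → Set W, (∀ n, V n ∈ U n) ∧ Z ⊆ ⋃ n, V n := by
  classical
  have h1 : ∀ n, ∃ e : ℕ → Set W, (∀ l, e l ∈ U n) ∧ ∀ p, ∃ l, p ∈ e l := by
    intro n
    obtain ⟨T, hTc, hTU, hT⟩ := TopologicalSpace.isOpen_sUnion_countable (U n) (hU n).1
    rw [(hU n).2] at hT
    have hne : T.Nonempty := by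
      obtain ⟨p⟩ := ‹Nonempty W›
      have : p ∈ ⋃₀ T := by rw [hT]; trivial
      obtain ⟨t, ht, _⟩ := this
      exact ⟨t, ht⟩
    obtain ⟨e, he⟩ := hTc.exists_eq_range hne
    refine ⟨e, fun l => hTU (he ▸ ⟨l, rfl⟩), fun p => ?_⟩
    have : p ∈ ⋃₀ T := by rw [hT]; trivial
    obtain ⟨t, ht, hp⟩ := this
    rw [he] at ht
    obtain ⟨l, rfl⟩ := ht
    exact ⟨l, hp⟩
  choose e heU he using h1
  let D : Z → Set Cantor := fun p => {b | ∃ i l, b (Nat.pair i l) = true ∧
    (∀ l' < l, b (Nat.pair i l') = false) ∧ p.1 ∈ e i l}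
  have hD : ∀ p, IsMeagre (D p)ᶜ := by
    intro p
    unfold IsMeagre
    rw [compl_compl]
    apply residual_of_dense_open
    · apply isOpen_of_agree
      rintro b ⟨i, l, h1, h2, h3⟩
      refine ⟨Nat.pair i l + 1, fun y hy => ⟨i, l, ?_, fun l' hl' => ?_, h3⟩⟩
      · rw [hy _ (Nat.lt_succ_self _)]; exact h1
      · rw [hy _ (Nat.lt_succ_of_lt (Nat.pair_lt_pair_right i hl'))]; exact h2 l' hl'
    · apply dense_of_agree
      intro x N
      obtain ⟨l, hl⟩ := he N p.1
      refine ⟨fun n => if n < N then x n else decide (n = Nat.pair N l), ⟨N, l, ?_, ?_, hl⟩,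
        fun n hn => by simp [hn]⟩
      · have : ¬ Nat.pair N l < N := not_lt.2 (Nat.left_le_pair N l)
        simp [this]
      · intro l' hl'
        have : ¬ Nat.pair N l' < N := not_lt.2 (Nat.left_le_pair N l')
        have h2 : Nat.pair N l' ≠ Nat.pair N l := (Nat.pair_lt_pair_right N hl').ne
        simp [this, h2]
  obtain ⟨b, hb⟩ := exists_not_mem_of_lt_covM hZ (fun p => (D p)ᶜ) hD
  let φ : ℕ → ℕ := fun i => if h : ∃ l, b (Nat.pair i l) = true then Nat.find h else 0
  refine ⟨fun i => e i (φ i), fun i => heU i _, fun p hp => ?_⟩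
  have hbD : b ∈ D ⟨p, hp⟩ := by
    have := hb ⟨p, hp⟩
    simpa using this
  obtain ⟨i, l, h1, h2, h3⟩ := hbD
  have hex : ∃ l, b (Nat.pair i l) = true := ⟨l, h1⟩
  have : φ i = l := by
    simp only [φ, dif_pos hex]
    rw [Nat.find_eq_iff]
    exact ⟨h1, fun l' hl' => by simp [h2 l' hl']⟩
  exact mem_iUnion.2 ⟨i, by rw [this]; exact h3⟩

/-- recursion along a well order -/
theorem rec_exists {I α : Type} [LinearOrder I] [WellFoundedLT I] [Inhabited α]
    (P : I → (I → α) → α → Prop)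
    (hcongr : ∀ i f g a, (∀ j < i, f j = g j) → P i f a → P i g a)
    (hex : ∀ i f, ∃ a, P i f a) : ∃ x : I → α, ∀ i, P i x (x i) := by
  classical
  choose c hc using hex
  let x : I → α := (wellFounded_lt (α := I)).fix
    (fun i rec => c i (fun j => if h : j < i then rec j h else default))
  have hx : ∀ i, x i = c i (fun j => if j < i then x j else default) := by
    intro i
    have := (wellFounded_lt (α := I)).fix_eq
      (fun i (rec : ∀ j, j < i → α) => c i (fun j => if h : j < i then rec j h else default)) i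
    simpa [x] using this
  refine ⟨x, fun i => ?_⟩
  have := hc i (fun j => if j < i then x j else default)
  rw [← hx i] at this
  exact hcongr i _ _ _ (fun j hj => by simp [hj]) this

/-- a translation moving a Luzin set off the finite sets -/
theorem exists_translation {κ : Cardinal.{0}} {X : Set Cantor} (hX : IsLuzin κ X) :
    ∃ t : Cantor, ∀ x ∈ X, {n | x n ≠ t n}.Infinite := by
  classical
  by_contra hcon
  push Not at hcon
  let M : Set Cantor := {x | ¬ ∀ N, ∃ n, N ≤ n ∧ x (2 * n) = true}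
  have hM : IsMeagre M := by
    unfold IsMeagre
    have : Mᶜ = ⋂ N, {x : Cantor | ∃ n, N ≤ n ∧ x (2 * n) = true} := by
      ext x; simp [M]
    rw [this]
    refine countable_iInter_mem.2 fun N => residual_of_dense_open ?_ ?_
    · apply isOpen_of_agree
      rintro x ⟨n, hn, hx⟩
      exact ⟨2 * n + 1, fun y hy => ⟨n, hn, by rw [hy _ (Nat.lt_succ_self _)]; exact hx⟩⟩
    · apply dense_of_agree
      intro x K
      refine ⟨fun n => if n < K then x n else true, ⟨N + K, by omega, ?_⟩, fun n hn => by simp [hn]⟩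
      have : ¬ 2 * (N + K) < K := by omega
      simp [this]
  let tt : Cantor → Cantor := fun a n => if n % 2 = 1 then a (Nat.unpair (n / 2)).1 else false
  choose xx hxX hxf using fun a => hcon (tt a)
  have hxM : ∀ a, xx a ∈ M := by
    intro a h
    obtain ⟨N, hN⟩ := (hxf a).bddAbove
    obtain ⟨n, hn, hx⟩ := h (N + 1)
    have : 2 * n ∈ {n | xx a n ≠ tt a n} := by
      have h2 : ¬ (2 * n) % 2 = 1 := by omega
      simp [tt, hx]
    have := hN this
    omega
  have hinj : Function.Injective fun a => (⟨xx a, hxX a, hxM a⟩ : (X ∩ M : Set Cantor)) := by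
    intro a b hab
    have hab' : xx a = xx b := congrArg Subtype.val hab
    funext i
    obtain ⟨N, hN⟩ := ((hxf a).union (hxf b)).bddAbove
    have hn : 2 * Nat.pair i (N + 1) + 1 ∉ {n | xx a n ≠ tt a n} ∪ {n | xx b n ≠ tt b n} := by
      intro h
      have h1 := hN h
      have h2 := Nat.right_le_pair i (N + 1)
      omega
    simp only [mem_union, mem_setOf_eq, not_or, not_not] at hn
    have e1 : (2 * Nat.pair i (N + 1) + 1) % 2 = 1 := by omega
    have e2 : (2 * Nat.pair i (N + 1) + 1) / 2 = Nat.pair i (N + 1) := by omega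
    have h1 := hn.1
    have h2 := hn.2
    simp only [tt, e1, e2, if_true, Nat.unpair_pair] at h1 h2
    rw [← h1, ← h2, hab']
  have h1 : #Cantor ≤ #(X ∩ M : Set Cantor) := mk_le_of_injective hinj
  have h2 := hX.2 M hM
  have h3 : κ ≤ #Cantor := hX.1.trans (mk_set_le X)
  exact absurd (lt_of_le_of_lt h1 (lt_of_lt_of_le h2 h3)) (lt_irrefl _)

end Pool.Agent.H501Z.Luz
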