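import Mathlib

/-!
Luzin sets, the covering number of the meager ideal, the dominating number and the
covering properties of Menger and Rothberger.
-/

set_option autoImplicit false

namespace Pool.Agent.H501Z.Luz

open Set Filter Cardinal

/-- The Cantor space. -/
abbrev Cantor : Type := ℕ → Bool

/-- The least cardinality of a family of meager subsets of the Cantor space covering it. -/
noncomputable def covM : Cardinal.{0} :=
  sInf {c : Cardinal.{0} | ∃ F : Set (Set Cantor),
    (∀ M ∈ F, IsMeagre M) ∧ ⋃₀ F = Set.univ ∧ #F = c}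

/-- The dominating number: the least cardinality of a family `D` such that every function is
eventually dominated by a member of `D`. -/
noncomputable def domNum : Cardinal.{0} :=
  sInf {c : Cardinal.{0} | ∃ D : Set (ℕ → ℕ),
    (∀ g : ℕ → ℕ, ∃ f ∈ D, ∀ᶠ n in atTop, g n ≤ f n) ∧ #D = c}

/-- `X` has at least `κ` points and fewer than `κ` points in every meager set. -/
def IsLuzin (κ : Cardinal.{0}) (X : Set Cantor) : Prop :=
  κ ≤ #X ∧ ∀ M : Set Cantor, IsMeagre M → #(X ∩ M : Set Cantor) < κ

/-- `U` is an open cover of the space `Z`. -/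
def IsOpenCoverOf (Z : Type) [TopologicalSpace Z] (U : Set (Set Z)) : Prop :=
  (∀ u ∈ U, IsOpen u) ∧ ⋃₀ U = Set.univ

/-- Menger's property. -/
def IsMenger (Z : Type) [TopologicalSpace Z] : Prop :=
  ∀ U : ℕ → Set (Set Z), (∀ n, IsOpenCoverOf Z (U n)) →
    ∃ F : ℕ → Set (Set Z), (∀ n, (F n).Finite ∧ F n ⊆ U n) ∧ (⋃ n, ⋃₀ F n) = Set.univ

/-- Rothberger's property. -/
def IsRothberger (Z : Type) [TopologicalSpace Z] : Prop :=
  ∀ U : ℕ → Set (Set Z), (∀ n, IsOpenCoverOf Z (U n)) →
    ∃ V : ℕ → Set Z, (∀ n, V n ∈ U n) ∧ (⋃ n, V n) = Set.univ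

end Pool.Agent.H501Z.Luz
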