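import Pool.Agent.H501Z.Luz.Basic

set_option autoImplicit false

namespace Pool.Agent.H501Z.Luz

open Set Filter Cardinal

/-- the set of starting points of gaps of `x` of length given by `h` -/
def Gap (x : Cantor) (h : ℕ → ℕ) : Set ℕ := {n | ∀ k, n ≤ k → k < h n → x k = false}

/-- translation -/
def tr (t x : Cantor) : Cantor := fun n => xor (x n) (t n)

theorem gap_residual (t : Cantor) (A : Set ℕ) (h : ℕ → ℕ) :
    IsMeagre {x : Cantor | ¬ (A.Infinite → (A ∩ Gap (tr t x) h).Infinite)} := by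
  by_cases hA : A.Infinite
  · unfold IsMeagre
    have hsub : (⋂ N, {x : Cantor | ∃ n ∈ A, N ≤ n ∧ n ∈ Gap (tr t x) h}) ⊆
        {x : Cantor | ¬ (A.Infinite → (A ∩ Gap (tr t x) h).Infinite)}ᶜ := by
      intro x hx
      simp only [mem_compl_iff, mem_setOf_eq, not_not]
      intro _
      apply Set.infinite_of_not_bddAbove
      rintro ⟨N, hN⟩
      obtain ⟨n, hnA, hn, hG⟩ := mem_iInter.1 hx (N + 1)
      have := hN ⟨hnA, hG⟩
      omega
    refine mem_of_superset ?_ hsub
    refine countable_iInter_mem.2 fun N => residual_of_dense_open ?_ ?_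
    · apply isOpen_of_agree
      rintro x ⟨n, hnA, hn, hG⟩
      refine ⟨h n, fun y hy => ⟨n, hnA, hn, fun k hk1 hk2 => ?_⟩⟩
      have := hG k hk1 hk2
      simp only [tr] at this ⊢
      rw [hy k hk2]; exact this
    · apply dense_of_agree
      intro x K
      obtain ⟨n, hnA, hn⟩ := hA.exists_gt (N + K)
      refine ⟨fun m => if m < K then x m else t m, ⟨n, hnA, by omega, fun k hk1 _ => ?_⟩,
        fun m hm => by simp [hm]⟩
      have : ¬ k < K := by omega
      simp [tr, this]
  · have : {x : Cantor | ¬ (A.Infinite → (A ∩ Gap (tr t x) h).Infinite)} = ∅ := by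
      ext x; simp [hA]
    rw [this]
    exact IsMeagre.empty

section Index

variable {κ : Cardinal.{0}} {I : Type} [LinearOrder I]

theorem mk_Iic_lt (hreg : κ.IsRegular) (hI : ∀ i : I, #(Iio i) < κ) (i : I) : #(Iic i) < κ := by
  have : Iic i = insert i (Iio i) := by
    ext j; simp [le_iff_eq_or_lt]
  rw [this]
  refine lt_of_le_of_lt mk_insert_le ?_
  exact add_lt_of_lt hreg.aleph0_le (hI i) (lt_of_lt_of_le one_lt_aleph0 hreg.aleph0_le)

theorem exists_upper (hreg : κ.IsRegular) (hI : ∀ i : I, #(Iio i) < κ) (hIκ : #I = κ)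
    {ι : Type} (hι : #ι < κ) (f : ι → I) : ∃ a : I, ∀ s, f s ≤ a := by
  by_contra hcon
  push Not at hcon
  have h1 : (⋃ s, Iio (f s)) = Set.univ := by
    ext a
    simp only [mem_iUnion, mem_Iio, mem_univ, iff_true]
    exact hcon a
  have h2 : #(⋃ s, Iio (f s)) < κ :=
    (card_iUnion_lt_iff_forall_of_isRegular hreg hι).2 fun s => hI _
  rw [h1, mk_univ, hIκ] at h2
  exact lt_irrefl _ h2

end Index

/-- common gaps -/
def CG {I : Type} (t : Cantor) (d : I → ℕ → ℕ) (x : I → Cantor) (B : Finset I) (γ : I) : Set ℕ :=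
  {n | ∀ β ∈ B, n ∈ Gap (tr t (x β)) (fun m => d β (d γ m))}

theorem exists_seq {κ : Cardinal.{0}} (hreg : κ.IsRegular) (hκ : ℵ₀ < κ) {I : Type}
    [LinearOrder I] [WellFoundedLT I] (hI : ∀ i : I, #(Iio i) < κ) {X : Set Cantor}
    (hX : IsLuzin κ X) (t : Cantor) (d : I → ℕ → ℕ) :
    ∃ x : I → Cantor, (∀ i, x i ∈ X) ∧
      ∀ (γ : I) (B : Finset I), (∀ β ∈ B, γ ≤ β) → (CG t d x B γ).Infinite := by
  classical
  obtain ⟨x, hx⟩ := rec_exists (I := I) (α := Cantor)
    (fun i f a => a ∈ X ∧ ∀ γ ≤ i, ∀ B : Finset I, (∀ β ∈ B, β < i) →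
      (CG t d f B γ).Infinite → (CG t d f B γ ∩ Gap (tr t a) (fun m => d i (d γ m))).Infinite)
    (by
      rintro i f g a hfg ⟨haX, ha⟩
      refine ⟨haX, fun γ hγ B hB => ?_⟩
      have : CG t d f B γ = CG t d g B γ := by
        ext n
        simp only [CG, mem_setOf_eq]
        refine forall₂_congr fun β hβ => ?_
        rw [hfg β (hB β hβ)]
      rw [← this]
      exact ha γ hγ B hB)
    (by
      intro i f
      let ι := Iic i × Finset (Iio i)
      have hι : #ι < κ := by
        simp only [ι, mk_prod, lift_id]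
        apply mul_lt_of_lt hreg.aleph0_le (mk_Iic_lt hreg hI i)
        have hle : #(Finset (Iio i)) ≤ #(List (Iio i)) :=
          mk_le_of_surjective (f := fun l : List (Iio i) => l.toFinset)
            (fun s => ⟨s.toList, s.toList_toFinset⟩)
        refine lt_of_le_of_lt (hle.trans (mk_list_le_max _)) ?_
        exact max_lt hκ (hI i)
      let Bad : ι → Set Cantor := fun p => X ∩ {a | ¬ ((CG t d f (p.2.image Subtype.val) p.1.1).Infinite →
        (CG t d f (p.2.image Subtype.val) p.1.1 ∩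
          Gap (tr t a) (fun m => d i (d p.1.1 m))).Infinite)}
      have hBad : #(⋃ p, Bad p) < κ :=
        (card_iUnion_lt_iff_forall_of_isRegular hreg hι).2 fun p => hX.2 _ (gap_residual _ _ _)
      have : ¬ X ⊆ ⋃ p, Bad p := fun h =>
        absurd (lt_of_le_of_lt (hX.1.trans (mk_le_mk_of_subset h)) hBad) (lt_irrefl _)
      obtain ⟨a, haX, ha⟩ := not_subset.1 this
      refine ⟨a, haX, fun γ hγ B hB => ?_⟩
      by_contra hcon
      apply ha
      refine mem_iUnion.2 ⟨(⟨γ, hγ⟩, B.subtype (fun β => β < i)), haX, ?_⟩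
      have e : (B.subtype (fun β => β < i)).image Subtype.val = B := by
        ext β
        simp only [Finset.mem_image, Finset.mem_subtype]
        constructor
        · rintro ⟨b, hb, rfl⟩; exact hb
        · intro hb; exact ⟨⟨β, hB β hb⟩, hb, rfl⟩
      show ¬ _
      erw [e]
      exact hcon)
  refine ⟨x, fun i => (hx i).1, fun γ B => ?_⟩
  induction B using Finset.induction_on_max with
  | empty =>
    intro _
    have : CG t d x ∅ γ = Set.univ := by ext n; simp [CG]
    rw [this]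
    exact infinite_univ
  | insert a s hs ih =>
    intro hB
    have h1 := (hx a).2 γ (hB a (Finset.mem_insert_self _ _)) s hs
      (ih fun β hβ => hB β (Finset.mem_insert_of_mem hβ))
    refine h1.mono ?_
    rintro n ⟨hn1, hn2⟩ β hβ
    rcases Finset.mem_insert.1 hβ with rfl | hβ
    · exact hn2
    · exact hn1 β hβ

open Classical in
/-- fill all the short gaps -/
noncomputable def fill (x : Cantor) (h : ℕ → ℕ) : Cantor :=
  fun k => decide (¬ ∃ n ≤ k, k < h n ∧ n ∈ Gap x h)

theorem fill_false {x : Cantor} {h : ℕ → ℕ} {k : ℕ} :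
    fill x h k = false ↔ ∃ n ≤ k, k < h n ∧ n ∈ Gap x h := by
  simp [fill]

theorem fill_of_true {x : Cantor} {h : ℕ → ℕ} {k : ℕ} (hk : x k = true) : fill x h k = true := by
  by_contra hcon
  obtain ⟨n, hn1, hn2, hG⟩ := fill_false.1 (by simpa using hcon)
  rw [hG k hn1 hn2] at hk
  exact absurd hk (by simp)

theorem gap_fill {x : Cantor} {h g : ℕ → ℕ} (hm : Monotone h) (hlt : ∀ n, n < h n) {n : ℕ}
    (hn : n ∈ Gap x (fun m => h (g m))) : n ∈ Gap (fill x h) g := by
  intro k hk1 hk2
  refine fill_false.2 ⟨k, le_rfl, hlt k, fun j hj1 hj2 => hn j (hk1.trans hj1) ?_⟩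
  exact lt_of_lt_of_le hj2 (hm hk2.le)

theorem fill_pattern {x : Cantor} {h : ℕ → ℕ} (hm : Monotone h) {n a b c : ℕ} (hna : n ≤ a)
    (hab : a < b) (hbc : b < c) (ha : fill x h a = true) (hb : fill x h b = false)
    (hc : fill x h c = true) : h n ≤ c := by
  obtain ⟨n', h1, h2, hG⟩ := fill_false.1 hb
  have hall : ∀ l, n' ≤ l → l < h n' → fill x h l = false := fun l hl1 hl2 =>
    fill_false.2 ⟨n', hl1, hl2, hG⟩
  have h3 : a < n' := by
    by_contra hcon
    rw [hall a (by omega) (by omega)] at ha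
    exact absurd ha (by simp)
  have h4 : h n' ≤ c := by
    by_contra hcon
    rw [hall c (by omega) (by omega)] at hc
    exact absurd hc (by simp)
  exact (hm (by omega : n ≤ n')).trans h4

theorem not_menger {I : Type} {X : Set Cantor} (t : Cantor)
    (ht : ∀ x ∈ X, {n | x n ≠ t n}.Infinite) (d : I → ℕ → ℕ) (hm : ∀ i, Monotone (d i))
    (hd : ∀ g : ℕ → ℕ, ∃ i, ∀ n, g n ≤ d i n) (x : I → Cantor) (hx : ∀ i, x i ∈ X)
    (hco : ∀ i, {n | fill (tr t (x i)) (d i) n = false}.Infinite) :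
    ¬ IsMenger (X × ({y : Cantor | {n | y n = true}.Finite} ∪
      range (fun i => fill (tr t (x i)) (d i)) : Set Cantor)) := by
  classical
  set Y : Set Cantor := {y : Cantor | {n | y n = true}.Finite} ∪
      range (fun i => fill (tr t (x i)) (d i)) with hY
  have htr : ∀ z ∈ X, {n | tr t z n = true}.Infinite := by
    intro z hz
    refine (ht z hz).mono fun n hn => ?_
    simp only [mem_setOf_eq, tr] at hn ⊢
    cases h1 : z n <;> cases h2 : t n <;> simp_all
  let u : ℕ → ℕ → Set (X × Y) := fun n m => {p | (∃ l, tr t p.1.1 l = true ∧ p.2.1 l = false) ∨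
    ∃ a b c, (n ≤ a ∧ a < b ∧ b < c ∧ c < m) ∧ p.2.1 a = true ∧ p.2.1 b = false ∧ p.2.1 c = true}
  have c1 : ∀ l, Continuous fun p : X × Y => tr t p.1.1 l := by
    intro l
    have : Continuous fun p : X × Y => p.1.1 l :=
      (continuous_apply l).comp (continuous_subtype_val.comp continuous_fst)
    exact (continuous_of_discreteTopology (f := fun b : Bool => xor b (t l))).comp this
  have c2 : ∀ l, Continuous fun p : X × Y => p.2.1 l := by
    intro l
    exact (continuous_apply l).comp (continuous_subtype_val.comp continuous_snd)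
  have o1 : ∀ l b, IsOpen {p : X × Y | tr t p.1.1 l = b} := fun l b =>
    (isOpen_discrete {b}).preimage (c1 l)
  have o2 : ∀ l b, IsOpen {p : X × Y | p.2.1 l = b} := fun l b =>
    (isOpen_discrete {b}).preimage (c2 l)
  have hu : ∀ n m, IsOpen (u n m) := by
    intro n m
    simp only [u, setOf_or, setOf_exists, setOf_and]
    refine IsOpen.union (isOpen_iUnion fun l => (o1 l _).inter (o2 l _)) ?_
    refine isOpen_iUnion fun a => isOpen_iUnion fun b => isOpen_iUnion fun c => ?_
    refine IsOpen.inter ?_ ((o2 _ _).inter ((o2 _ _).inter (o2 _ _)))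
    exact isOpen_const.inter (isOpen_const.inter (isOpen_const.inter isOpen_const))
  have hmono : ∀ n m m', m ≤ m' → u n m ⊆ u n m' := by
    rintro n m m' hmm p (h | ⟨a, b, c, ⟨h1, h2, h3, h4⟩, h5⟩)
    · exact Or.inl h
    · exact Or.inr ⟨a, b, c, ⟨h1, h2, h3, by omega⟩, h5⟩
  intro hM
  obtain ⟨F, hF, hcov⟩ := hM (fun n => range (u n)) (by
    intro n
    refine ⟨?_, ?_⟩
    · rintro _ ⟨m, rfl⟩
      exact hu n m
    · ext p
      simp only [sUnion_range, mem_iUnion, mem_univ, iff_true]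
      rcases p.2.2 with hfin | ⟨i, hi⟩
      · obtain ⟨l, hl1, hl2⟩ := ((htr p.1.1 p.1.2).diff hfin).nonempty
        exact ⟨0, Or.inl ⟨l, hl1, by simpa using hl2⟩⟩
      · have hinf : {n | p.2.1 n = true}.Infinite := by
          rw [← hi]
          exact (htr _ (hx i)).mono fun n hn => fill_of_true hn
        have hinf2 : {n | p.2.1 n = false}.Infinite := by
          rw [← hi]
          exact hco i
        obtain ⟨a, ha, hna⟩ := hinf.exists_gt n
        obtain ⟨b, hb, hab⟩ := hinf2.exists_gt a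
        obtain ⟨c, hc, hbc⟩ := hinf.exists_gt b
        exact ⟨c + 1, Or.inr ⟨a, b, c, ⟨hna.le, hab, hbc, Nat.lt_succ_self _⟩, ha, hb, hc⟩⟩)
  have hb : ∀ n, ∃ m, ⋃₀ F n ⊆ u n m := by
    intro n
    have h1 : ∀ v : F n, ∃ m, v.1 = u n m := fun v => by
      obtain ⟨m, hm⟩ := (hF n).2 v.2
      exact ⟨m, hm.symm⟩
    choose μ hμ using h1
    have : Finite (F n) := (hF n).1
    obtain ⟨m, hm⟩ := (Set.finite_range μ).bddAbove
    refine ⟨m, ?_⟩
    rintro p ⟨v, hv, hp⟩
    refine hmono n (μ ⟨v, hv⟩) m (hm ⟨_, rfl⟩) ?_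
    rw [← hμ ⟨v, hv⟩]
    exact hp
  choose g hg using hb
  obtain ⟨i, hi⟩ := hd g
  let p : X × Y := (⟨x i, hx i⟩, ⟨fill (tr t (x i)) (d i), Or.inr ⟨i, rfl⟩⟩)
  have hp : p ∈ ⋃ n, ⋃₀ F n := by rw [hcov]; trivial
  obtain ⟨n, hn⟩ := mem_iUnion.1 hp
  rcases hg n hn with ⟨l, hl1, hl2⟩ | ⟨a, b, c, ⟨h1, h2, h3, h4⟩, h5, h6, h7⟩
  · have : fill (tr t (x i)) (d i) l = true := fill_of_true hl1
    have h2 : fill (tr t (x i)) (d i) l = false := hl2
    rw [this] at h2
    exact absurd h2 (by simp)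
  · have := fill_pattern (hm i) h1 h2 h3 h5 h6 h7
    have := hi n
    omega

/-- extension of a finite sequence by zeros -/
def ext0 {m : ℕ} (s : Fin m → Bool) : Cantor := fun n => if h : n < m then s ⟨n, h⟩ else false

theorem ext0_finite {m : ℕ} (s : Fin m → Bool) : {n | ext0 s n = true}.Finite := by
  refine (Set.finite_lt_nat m).subset fun n hn => ?_
  by_contra h
  simp only [mem_setOf_eq, ext0] at hn h
  rw [dif_neg h] at hn
  exact absurd hn (by simp)

theorem countable_fin : {y : Cantor | {n | y n = true}.Finite}.Countable := by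
  have : {y : Cantor | {n | y n = true}.Finite} ⊆
      range (fun s : Finset ℕ => fun n => decide (n ∈ s)) := by
    intro y hy
    refine ⟨Set.Finite.toFinset hy, ?_⟩
    funext n
    cases h : y n <;> simp [h]
  exact (countable_range _).mono this

theorem rothberger_pow (hreg : covM.IsRegular) {I : Type} [LinearOrder I] [Nonempty I]
    (hI : ∀ i : I, #(Iio i) < covM) (hIκ : #I = covM) (d : I → ℕ → ℕ)
    (hd : ∀ g : ℕ → ℕ, ∃ i, ∀ n, g n ≤ d i n) (y : I → Cantor)
    (hy : ∀ (γ : I) (B : Finset I), (∀ β ∈ B, γ ≤ β) → ∃ m, ∀ β ∈ B, m ∈ Gap (y β) (d γ))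
    (k : ℕ) :
    IsRothberger (Fin k → ({z : Cantor | {n | z n = true}.Finite} ∪ range y : Set Cantor)) := by
  classical
  set Y : Set Cantor := {z : Cantor | {n | z n = true}.Finite} ∪ range y with hY
  intro U hU
  let z0 : Y := ⟨fun _ => false, Or.inl (by simp)⟩
  have : Nonempty (Fin k → Y) := ⟨fun _ => z0⟩
  let old : I → Y → Prop := fun a z => {n | z.1 n = true}.Finite ∨ ∃ β < a, z.1 = y β
  have hold : ∀ a, #{z : Y | old a z} < covM := by
    intro a
    have h1 : #{z : Y | old a z} ≤ #({z : Cantor | {n | z n = true}.Finite} ∪ y '' Iio a : Set Cantor) := by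
      refine mk_le_of_injective (f := fun z => ⟨z.1.1, ?_⟩) ?_
      · rcases z.2 with h | ⟨β, hβ, h⟩
        · exact Or.inl h
        · exact Or.inr ⟨β, hβ, h.symm⟩
      · intro z z' h
        have h' : z.1.1 = z'.1.1 := Subtype.mk.inj h
        exact Subtype.ext (Subtype.ext h')
    refine lt_of_le_of_lt (h1.trans (mk_union_le _ _)) ?_
    apply add_lt_of_lt hreg.aleph0_le
    · exact lt_of_le_of_lt (le_aleph0_iff_set_countable.2 countable_fin) aleph0_lt_covM
    · exact lt_of_le_of_lt mk_image_le (hI a)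
  have hZ : ∀ a, #{p : Fin k → Y | ∀ c, old a (p c)} < covM := by
    intro a
    have h1 : #{p : Fin k → Y | ∀ c, old a (p c)} ≤ #(Fin k → {z : Y | old a z}) := by
      refine mk_le_of_injective (f := fun p c => ⟨p.1 c, p.2 c⟩) ?_
      intro p p' h
      refine Subtype.ext (funext fun c => ?_)
      exact congrArg Subtype.val (congrFun h c)
    refine lt_of_le_of_lt h1 ?_
    rw [← power_def, mk_fin]
    exact lt_of_le_of_lt power_nat_le_max (max_lt (hold a) aleph0_lt_covM)
  have step : ∀ (j : ℕ) (a : I), ∃ V : ℕ → Set (Fin k → Y), (∀ i, V i ∈ U (Nat.pair j i)) ∧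
      ∃ a', a ≤ a' ∧ ∀ p : Fin k → Y, (∀ c, old a (p c) ∨ ∃ β, a' ≤ β ∧ (p c).1 = y β) →
        p ∈ ⋃ i, V i := by
    intro j a
    obtain ⟨V, hV, hZV⟩ := small_rothberger _ (hZ a) (fun i => U (Nat.pair j i)) (fun i => hU _)
    have hVo : IsOpen (⋃ i, V i) := isOpen_iUnion fun i => (hU _).1 _ (hV i)
    have h1 : ∀ w : Fin k → Y, ∃ N : ℕ, (∀ c, old a (w c)) →
        ∀ q : Fin k → Y, (∀ c, ∀ n < N, (q c).1 n = (w c).1 n) → q ∈ ⋃ i, V i := by
      intro w
      by_cases hw : ∀ c, old a (w c)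
      · obtain ⟨N, hN⟩ := agree_pow hVo (hZV hw)
        exact ⟨N, fun _ => hN⟩
      · exact ⟨0, fun h => absurd h hw⟩
    choose r hr using h1
    let md : (m : ℕ) → (Fin k → Y) → (Fin k → Option (Fin m → Bool)) → (Fin k → Y) :=
      fun m w τ c => (τ c).elim (w c) (fun s => ⟨ext0 s, Or.inl (ext0_finite s)⟩)
    let f : (Fin k → Y) → ℕ → ℕ := fun w m =>
      Finset.univ.sup (fun τ : Fin k → Option (Fin m → Bool) => r (md m w τ))
    choose γ hγ using fun w => hd (f w)
    obtain ⟨a1, ha1⟩ := exists_upper hreg hI hIκ (hZ a) (fun w => γ w.1)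
    refine ⟨V, hV, max a a1, le_max_left _ _, fun p hp => ?_⟩
    have h2 : ∀ c, ∃ β, ¬ old a (p c) → max a a1 ≤ β ∧ (p c).1 = y β := by
      intro c
      rcases hp c with h | ⟨β, hβ⟩
      · exact ⟨a, fun h' => absurd h h'⟩
      · exact ⟨β, fun _ => hβ⟩
    choose β hβ using h2
    let w : Fin k → Y := fun c => if old a (p c) then p c else z0
    have hw : ∀ c, old a (w c) := by
      intro c
      by_cases h : old a (p c)
      · simp only [w, if_pos h]; exact h
      · simp only [w, if_neg h]; exact Or.inl (by simp [z0])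
    obtain ⟨m, hm⟩ := hy (γ w) ((Finset.univ.filter fun c => ¬ old a (p c)).image β) (by
      intro b hb
      obtain ⟨c, hc, rfl⟩ := Finset.mem_image.1 hb
      have hc' := (Finset.mem_filter.1 hc).2
      exact (ha1 ⟨w, hw⟩).trans ((le_max_right _ _).trans (hβ c hc').1))
    let τ : Fin k → Option (Fin m → Bool) := fun c =>
      if old a (p c) then none else some (fun n => (p c).1 n)
    have hw' : ∀ c, old a (md m w τ c) := by
      intro c
      by_cases h : old a (p c)
      · simp only [md, τ, if_pos h, Option.elim]; exact hw c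
      · simp only [md, τ, if_neg h, Option.elim]
        exact Or.inl (ext0_finite (fun n : Fin m => (p c).1 n))
    refine hr (md m w τ) hw' p fun c n hn => ?_
    have hn2 : n < d (γ w) m := by
      refine lt_of_lt_of_le hn (le_trans ?_ (hγ w m))
      exact Finset.le_sup (f := fun τ : Fin k → Option (Fin m → Bool) => r (md m w τ))
        (Finset.mem_univ τ)
    by_cases h : old a (p c)
    · simp only [md, τ, w, if_pos h, Option.elim]
    · simp only [md, τ, if_neg h, Option.elim, ext0]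
      by_cases hnm : n < m
      · rw [dif_pos hnm]
      · rw [dif_neg hnm, (hβ c h).2]
        exact hm (β c) (Finset.mem_image.2 ⟨c, Finset.mem_filter.2 ⟨Finset.mem_univ _, h⟩, rfl⟩)
          n (not_lt.1 hnm) hn2
  choose V hV nx hnx hcov using step
  let A : ℕ → I := fun j => Nat.rec (Classical.arbitrary I) (fun j a => nx j a) j
  have hA : ∀ j, A (j + 1) = nx j (A j) := fun j => rfl
  have hAm : Monotone A := monotone_nat_of_le_succ fun j => by rw [hA]; exact hnx j (A j)
  refine ⟨fun n => V (Nat.unpair n).1 (A (Nat.unpair n).1) (Nat.unpair n).2, fun n => ?_, ?_⟩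
  · have := hV (Nat.unpair n).1 (A (Nat.unpair n).1) (Nat.unpair n).2
    rwa [Nat.pair_unpair] at this
  · ext p
    simp only [mem_iUnion, mem_univ, iff_true]
    have h2 : ∀ c, ∃ β, {n | (p c).1 n = true}.Finite ∨ (p c).1 = y β := by
      intro c
      rcases (p c).2 with h | ⟨β, hβ⟩
      · exact ⟨Classical.arbitrary I, Or.inl h⟩
      · exact ⟨β, Or.inr hβ.symm⟩
    choose β hβ using h2
    have hfin : (⋃ c, {j | A j ≤ β c ∧ β c < A (j + 1)}).Finite := by
      refine Set.finite_iUnion fun c => Set.Subsingleton.finite ?_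
      rintro j ⟨h1, h2⟩ j' ⟨h3, h4⟩
      by_contra hne
      rcases lt_or_gt_of_ne hne with h | h
      · exact absurd (lt_of_lt_of_le h2 ((hAm (Nat.succ_le_of_lt h)).trans h3)) (lt_irrefl _)
      · exact absurd (lt_of_lt_of_le h4 ((hAm (Nat.succ_le_of_lt h)).trans h1)) (lt_irrefl _)
    obtain ⟨j, hj⟩ := hfin.infinite_compl.nonempty
    simp only [mem_compl_iff, mem_iUnion, mem_setOf_eq, not_exists, not_and, not_lt] at hj
    have := hcov j (A j) p (by
      intro c
      rcases hβ c with h | h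
      · exact Or.inl (Or.inl h)
      · by_cases hlt : β c < A j
        · exact Or.inl (Or.inr ⟨β c, hlt, h⟩)
        · exact Or.inr ⟨β c, by rw [← hA]; exact hj c (not_lt.1 hlt), h⟩)
    obtain ⟨i, hi⟩ := mem_iUnion.1 this
    exact ⟨Nat.pair j i, by simpa [Nat.unpair_pair] using hi⟩

theorem IsRothberger.menger {Z : Type} [TopologicalSpace Z] (h : IsRothberger Z) : IsMenger Z := by
  intro U hU
  obtain ⟨V, hV, hcov⟩ := h U hU
  refine ⟨fun n => {V n}, fun n => ⟨finite_singleton _, singleton_subset_iff.2 (hV n)⟩, ?_⟩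
  simpa using hcov

theorem exists_dom {I : Type} (hI : #I = domNum) : ∃ d : I → ℕ → ℕ, (∀ i, Monotone (d i)) ∧
    (∀ i n, n < d i n) ∧ ∀ g : ℕ → ℕ, ∃ i, ∀ n, g n ≤ d i n := by
  obtain ⟨D, hdom, hD⟩ := domNum_spec
  have h1 : #I = #(D × ℕ) := by
    rw [hI, mk_prod, lift_id, lift_id, hD, mk_nat, mul_aleph0_eq aleph0_lt_domNum.le]
  obtain ⟨e⟩ := Cardinal.eq.1 h1
  refine ⟨fun i n => (e i).2 + n + 1 + ∑ l ∈ Finset.range (n + 1), (e i).1.1 l, ?_, ?_, ?_⟩
  · intro i n n' hn
    have : ∑ l ∈ Finset.range (n + 1), (e i).1.1 l ≤ ∑ l ∈ Finset.range (n' + 1), (e i).1.1 l :=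
      Finset.sum_le_sum_of_subset (Finset.range_mono (by omega))
    simp only
    omega
  · intro i n
    simp only
    omega
  · intro g
    obtain ⟨f, hf, hgf⟩ := hdom g
    obtain ⟨N, hN⟩ := eventually_atTop.1 hgf
    refine ⟨e.symm (⟨f, hf⟩, (Finset.range N).sup g), fun n => ?_⟩
    simp only [Equiv.apply_symm_apply]
    by_cases hn : n < N
    · have : g n ≤ (Finset.range N).sup g := Finset.le_sup (f := g) (Finset.mem_range.2 hn)
      omega
    · have h1 := hN n (not_lt.1 hn)
      have h2 : f n ≤ ∑ l ∈ Finset.range (n + 1), f l :=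
        Finset.single_le_sum (f := f) (fun _ _ => Nat.zero_le _)
          (Finset.mem_range.2 (Nat.lt_succ_self n))
      omega

theorem main (h1 : covM = domNum) (hreg : covM.IsRegular) (X : Set Cantor)
    (hX : IsLuzin covM X) :
    ∃ Y : Set Cantor, (∀ k : ℕ, IsRothberger (Fin k → Y)) ∧ ¬ IsMenger (X × Y) := by
  let I := covM.ord.ToType
  have hIκ : #I = covM := mk_ord_toType _
  have hI : ∀ i : I, #(Iio i) < covM := fun i => mk_Iio_ord_toType i
  have : Nonempty I := by
    rw [← mk_ne_zero_iff, hIκ]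
    exact (lt_trans aleph0_pos aleph0_lt_covM).ne'
  obtain ⟨d, hm, hlt, hd⟩ := exists_dom (hIκ.trans h1)
  obtain ⟨t, ht⟩ := exists_translation hX
  obtain ⟨x, hx, hCG⟩ := exists_seq hreg aleph0_lt_covM hI hX t d
  refine ⟨_, fun k => rothberger_pow hreg hI hIκ d hd (fun i => fill (tr t (x i)) (d i)) ?_ k,
    not_menger t ht d hm hd x hx ?_⟩
  · intro γ B hB
    obtain ⟨m, hm'⟩ := (hCG γ B hB).nonempty
    exact ⟨m, fun β hβ => gap_fill (hm β) (hlt β) (hm' β hβ)⟩
  · intro i
    refine (hCG i {i} (by simp)).mono fun n hn => ?_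
    exact gap_fill (hm i) (hlt i) (hn i (Finset.mem_singleton_self i)) n le_rfl (hlt i n)

end Pool.Agent.H501Z.Luz
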